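import Mathlib
import Pool.Agent.Lib.helper8.PathDP

namespace Pool.Agent.Results.MP_407208_co.Inner

open Pool.Agent.Lib.helper8.PathDP

/-- Adjacency of cells in the king's graph. -/
def King {n : ℕ} (p q : Fin n × Fin n) : Prop :=
  p ≠ q ∧ p.1.val ≤ q.1.val + 1 ∧ q.1.val ≤ p.1.val + 1 ∧ p.2.val ≤ q.2.val + 1 ∧
    q.2.val ≤ p.2.val + 1

/-- The k-letter words of the board B (B sends each cell to its label). -/
def W {n : ℕ} (B : Fin n × Fin n ≃ Fin (n * n)) (k : ℕ) : Set (List (Fin (n * n))) :=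
  {w | w.length = k ∧ w.Nodup ∧ w.IsChain fun a b => King (B.symm a) (B.symm b)}

def Equivalent {n : ℕ} (B B' : Fin n × Fin n ≃ Fin (n * n)) : Prop := ∀ k ≥ 2, W B k = W B' k

def kb (a b : ℕ) : Bool := a != b && Nat.ble (a / 4) (b / 4 + 1) && Nat.ble (b / 4) (a / 4 + 1) &&
  Nat.ble (a % 4) (b % 4 + 1) && Nat.ble (b % 4) (a % 4 + 1)

def sw (x y a : ℕ) : ℕ := if a = x then y else if a = y then x else a

def E (x y : ℕ) (a : Fin 16) : List (Fin 16) :=
  (List.finRange 16).filter fun b => kb a b && kb (sw x y a) (sw x y b)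

theorem t1 : total (E 0 1) 11 = 968224 := by decide +kernel

theorem t2 : total (E 1 5) 11 = 1081252 := by decide +kernel

theorem cnt (p q : Fin 4 × Fin 4) (x y : ℕ)
    (h : ∀ a b : Fin 16, b ∈ E x y a ↔ King (finProdFinEquiv.symm a : Fin 4 × Fin 4)
      (finProdFinEquiv.symm b) ∧ King (((Equiv.swap p q).trans finProdFinEquiv).symm a)
        (((Equiv.swap p q).trans finProdFinEquiv).symm b))
    (h8 : ∀ v, (E x y v).length ≤ 8) :
    (W (n := 4) finProdFinEquiv 12 ∩ W ((Equiv.swap p q).trans finProdFinEquiv) 12).ncard =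
      total (E x y) 11 := by
  rw [← total_eq _ h8 fun v => (List.nodup_finRange 16).filter _]
  congr 1
  ext w
  simp only [W, Set.mem_inter_iff, Set.mem_ofPred_eq, h, List.isChain_iff_getElem, forall_and]
  tauto

theorem result : ∃ B B' : Fin 4 × Fin 4 ≃ Fin (4 * 4), ¬ Equivalent B B' ∧
    (W B 12 ∩ W ((Equiv.swap (0, 0) (0, 1)).trans B) 12).ncard < (W B 12 ∩ W B' 12).ncard := by
  refine ⟨finProdFinEquiv, (Equiv.swap (0, 1) (1, 1)).trans finProdFinEquiv, fun h => ?_, ?_⟩
  · have h1 : [5, 8] ∈ W (n := 4) finProdFinEquiv 2 := by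
      simp only [W, King, Set.mem_ofPred_eq, List.isChain_pair]
      decide +kernel
    rw [h 2 le_rfl] at h1
    simp only [W, King, Set.mem_ofPred_eq, List.isChain_pair] at h1
    revert h1
    decide +kernel
  · rw [cnt _ _ 0 1 (by unfold King; decide +kernel) (by decide +kernel),
      cnt _ _ 1 5 (by unfold King; decide +kernel) (by decide +kernel), t1, t2]
    norm_num

end Pool.Agent.Results.MP_407208_co.Inner
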